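import Mathlib

set_option autoImplicit false

namespace Pool.Agent.Results.MP_1e9cc8_nt.Thresholds

/-- number of primes in the closed interval `[a, b]` -/
def primesIn (a b : ℕ) : ℕ := ((Finset.Icc a b).filter Nat.Prime).card

/-- `N` is an admissible threshold for `k` -/
def Admissible (k N : ℕ) : Prop :=
  ∀ n : ℕ, N < n → k ≤ primesIn (n ^ 2 - n) (n ^ 2) ∧ k ≤ primesIn (n ^ 2) (n ^ 2 + n)

def cand (a b : ℕ) : ℕ :=
  ((Finset.Icc a b).filter fun m => ∀ d ∈ List.range' 2 190, d < m → m % d ≠ 0).card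

theorem le_cand (a b : ℕ) : primesIn a b ≤ cand a b := by
  refine Finset.card_le_card fun m hm => ?_
  simp only [Finset.mem_filter] at hm ⊢
  refine ⟨hm.1, fun d hd hlt h0 => ?_⟩
  have h2 : 2 ≤ d := (List.mem_range'_1.1 hd).1
  rcases (Nat.dvd_prime hm.2).1 (Nat.dvd_of_mod_eq_zero h0) with h | h <;> omega

theorem result : ∀ p ∈ ({(2, 16), (3, 36), (4, 46), (5, 76), (7, 79), (8, 85), (9, 118), (10, 136),
    (12, 155), (13, 188)} : Finset (ℕ × ℕ)), ¬ Admissible p.1 p.2 := by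
  have key : ∀ p ∈ ({(2, 16), (3, 36), (4, 46), (5, 76), (7, 79), (8, 85), (9, 118), (10, 136),
      (12, 155), (13, 188)} : Finset (ℕ × ℕ)),
      cand ((p.2 + 1) ^ 2 - (p.2 + 1)) ((p.2 + 1) ^ 2) < p.1 ∨
        cand ((p.2 + 1) ^ 2) ((p.2 + 1) ^ 2 + (p.2 + 1)) < p.1 := by decide +kernel
  intro p hp h
  obtain ⟨h1, h2⟩ := h (p.2 + 1) (Nat.lt_succ_self _)
  rcases key p hp with h | h
  · exact absurd (h1.trans (le_cand _ _)) (by omega)
  · exact absurd (h2.trans (le_cand _ _)) (by omega)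

end Pool.Agent.Results.MP_1e9cc8_nt.Thresholds
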